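import Pool.Agent.Q74.PD.Stm8
import Pool.Agent.Q223.PD.Fpa

/-!
# Project PD, job Lca: passing in one class modulo a power of two
-/

set_option autoImplicit false

namespace Pool.Agent.Q153.PD

open Finset Filter Topology
open Pool.Agent.H499R2.ND Pool.Agent.H320R2.PD Pool.Agent.Y856.PD Pool.Agent.Q74.PD
open Pool.Agent.Q204.PDP (oc)

theorem count_near (s : Finset ℤ) (ρ z c : ℝ) (hρ : 0 < ρ) (hc : 0 ≤ c) :
    ((s.filter (fun b : ℤ => |ρ * b - z| ≤ c)).card : ℝ) ≤ 2 * c / ρ + 1 := by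
  have hsub : s.filter (fun b : ℤ => |ρ * b - z| ≤ c) ⊆ Finset.Icc ⌈(z - c) / ρ⌉ ⌊(z + c) / ρ⌋ := by
    intro b hb
    rw [mem_filter] at hb
    have h := abs_le.1 hb.2
    rw [Finset.mem_Icc, Int.ceil_le, Int.le_floor, div_le_iff₀ hρ, le_div_iff₀ hρ]
    constructor <;> nlinarith [h.1, h.2]
  have h1 := card_le_card hsub
  rw [Int.card_Icc] at h1
  have h2 : (⌊(z + c) / ρ⌋ : ℝ) ≤ (z + c) / ρ := Int.floor_le _
  have h3 : (z - c) / ρ ≤ (⌈(z - c) / ρ⌉ : ℝ) := Int.le_ceil _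
  have h4 : (((⌊(z + c) / ρ⌋ + 1 - ⌈(z - c) / ρ⌉).toNat : ℕ) : ℝ) ≤ 2 * c / ρ + 1 := by
    rcases le_total 0 (⌊(z + c) / ρ⌋ + 1 - ⌈(z - c) / ρ⌉) with h | h
    · have h5 : (((⌊(z + c) / ρ⌋ + 1 - ⌈(z - c) / ρ⌉).toNat : ℕ) : ℝ) =
          ((⌊(z + c) / ρ⌋ + 1 - ⌈(z - c) / ρ⌉ : ℤ) : ℝ) := by
        have := Int.toNat_of_nonneg h
        exact_mod_cast congrArg (Int.cast : ℤ → ℝ) this
      rw [h5]
      push_cast
      have h6 : (z + c) / ρ - (z - c) / ρ = 2 * c / ρ := by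
        rw [← sub_div]
        congr 1
        ring
      linarith
    · rw [Int.toNat_of_nonpos h]
      push_cast
      positivity
  exact le_trans (by exact_mod_cast h1) h4

theorem exists_alpha (ρ : ℕ → ℝ) (hρ : ∀ i, 0 < ρ i) (k : ℕ) : ∃ α : ℝ, 0 ≤ α ∧
    ∀ y b : ℝ, 0 < y → 0 < b → (α * y < b ↔ ∀ i < k, y < ρ i * b) := by
  induction k with
  | zero =>
    refine ⟨0, le_rfl, fun y b hy hb => ?_⟩
    rw [zero_mul]
    exact ⟨fun _ i hi => absurd hi (Nat.not_lt_zero i), fun _ => hb⟩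
  | succ k ih =>
    obtain ⟨α, hα0, hα⟩ := ih
    refine ⟨max α (1 / ρ k), le_max_of_le_left hα0, fun y b hy hb => ?_⟩
    rw [max_mul_of_nonneg _ _ hy.le, max_lt_iff, hα y b hy hb]
    constructor
    · rintro ⟨h1, h2⟩ i hi
      rcases Nat.lt_succ_iff_lt_or_eq.1 hi with h3 | h3
      · exact h1 i h3
      · rw [h3]
        rw [one_div_mul_eq_div, div_lt_iff₀ (hρ k)] at h2
        linarith
    · intro h
      refine ⟨fun i hi => h i (by omega), ?_⟩
      rw [one_div_mul_eq_div, div_lt_iff₀ (hρ k)]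
      have := h k (by omega)
      linarith

/-- comparison of two numbers after a small change -/
theorem lt_iff_of_far {y x c : ℝ} (h : ¬ |x - y| ≤ |c|) : y < x + c ↔ y < x := by
  rw [not_le] at h
  rcases lt_abs.1 h with h1 | h1
  · have := neg_abs_le c
    have h3 := abs_nonneg c
    constructor <;> intro _ <;> linarith
  · have := le_abs_self c
    have h3 := abs_nonneg c
    constructor <;> intro _ <;> linarith

theorem lt_iff_of_far' {y x c : ℝ} (h : ¬ |x - y| ≤ |c|) : x + c < y ↔ x ≤ y := by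
  rw [not_le] at h
  rcases lt_abs.1 h with h1 | h1
  · have := neg_abs_le c
    have h3 := abs_nonneg c
    constructor <;> intro _ <;> linarith
  · have := le_abs_self c
    have h3 := abs_nonneg c
    constructor <;> intro _ <;> linarith

/-- the trajectory of `v + 2^k q` -/
theorem traj {d : ℤ} (hd : Odd d) (k v : ℕ) (q : ℤ) {i : ℕ} (hi : i ≤ k) :
    (Td d)^[i] ((v : ℤ) + 2 ^ k * q) = (Td d)^[i] (v : ℤ) + 3 ^ oc d i (v : ℤ) * (2 ^ (k - i) * q) := by
  have e : (v : ℤ) + 2 ^ k * q = (v : ℤ) + 2 ^ i * (2 ^ (k - i) * q) := by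
    have : (2 : ℤ) ^ k = 2 ^ i * 2 ^ (k - i) := by rw [← pow_add]; congr 1; omega
    rw [this]
    ring
  rw [e, Pool.Agent.Q223.PD.iter_class hd]

theorem lca : S_Lca := by
  classical
  intro d hd R hR k v
  obtain ⟨o, ho⟩ : ∃ o : ℕ → ℕ, o = fun i => oc d i (v : ℤ) := ⟨_, rfl⟩
  obtain ⟨t, ht⟩ : ∃ t : ℕ → ℤ, t = fun i => (Td d)^[i] (v : ℤ) := ⟨_, rfl⟩
  obtain ⟨ρ, hρ⟩ : ∃ ρ : ℕ → ℝ, ρ = fun i => 3 ^ o i * 2 ^ (k - i) / 3 ^ o k := ⟨_, rfl⟩
  obtain ⟨c, hc⟩ : ∃ c : ℕ → ℝ, c = fun i => (t i : ℝ) - ρ i * t k := ⟨_, rfl⟩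
  have hρ0 : ∀ i, 0 < ρ i := by intro i; rw [hρ]; positivity
  obtain ⟨α, hα0, hα⟩ := exists_alpha ρ hρ0 k
  obtain ⟨β, hβ⟩ : ∃ β : ℝ, β = R / ρ 0 := ⟨_, rfl⟩
  -- the function
  obtain ⟨h, hh, hval⟩ : ∃ h ∈ Steps, ∀ (u : ℝ) (b : ℤ),
      h u b = if (α < u ∧ u ≤ β) ∧ (3 : ℤ) ^ o k ∣ b - t k then 1 else 0 := by
    by_cases hαβ : α ≤ β
    · refine ⟨ind β (o k) (t k) - ind α (o k) (t k), Submodule.sub_mem _
        (Submodule.subset_span ⟨β, o k, t k, rfl⟩) (Submodule.subset_span ⟨α, o k, t k, rfl⟩),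
        fun u b => ?_⟩
      simp only [Pi.sub_apply, ind]
      by_cases hdv : (3 : ℤ) ^ o k ∣ b - t k
      · by_cases h1 : u ≤ α
        · have h2 : u ≤ β := h1.trans hαβ
          rw [if_pos ⟨h2, hdv⟩, if_pos ⟨h1, hdv⟩, if_neg, sub_self]
          rintro ⟨⟨h3, -⟩, -⟩
          linarith
        · by_cases h2 : u ≤ β
          · rw [if_pos ⟨h2, hdv⟩, if_neg (fun h3 => h1 h3.1), if_pos ⟨⟨not_le.1 h1, h2⟩, hdv⟩, sub_zero]
          · rw [if_neg (fun h3 => h2 h3.1), if_neg (fun h3 => h1 h3.1), if_neg (fun h3 => h2 h3.1.2),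
              sub_zero]
      · rw [if_neg (fun h3 => hdv h3.2), if_neg (fun h3 => hdv h3.2), if_neg (fun h3 => hdv h3.2),
          sub_zero]
    · refine ⟨0, Submodule.zero_mem _, fun u b => ?_⟩
      rw [if_neg]
      · rfl
      · rintro ⟨⟨h1, h2⟩, -⟩
        exact hαβ (h1.le.trans h2)
  -- the values of the trajectory
  have htr : ∀ q : ℤ, ∀ i ≤ k, (((Td d)^[i] ((v : ℤ) + 2 ^ k * q) : ℤ) : ℝ) =
      ρ i * ((t k + 3 ^ o k * q : ℤ) : ℝ) + c i := by
    intro q i hi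
    rw [traj hd k v q hi, hc, hρ, ht, ho]
    push_cast
    have h3 : (3 : ℝ) ^ oc d k (v : ℤ) ≠ 0 := by positivity
    field_simp
    ring
  have htk : ∀ q : ℤ, (Td d)^[k] ((v : ℤ) + 2 ^ k * q) = t k + 3 ^ o k * q := by
    intro q
    rw [traj hd k v q le_rfl, ht, ho, Nat.sub_self, pow_zero, one_mul]
  have hP : ∀ y : ℝ, 1 ≤ y → ∀ b : ℤ, 1 ≤ b → (Pkv d R y k v b ↔ ((3 : ℤ) ^ o k ∣ b - t k ∧
      ρ 0 * b + c 0 < R * y ∧ ∀ i < k, y < ρ i * b + c i)) := by
    intro y hy b hb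
    constructor
    · rintro ⟨n, h1, h2, ⟨q, hq⟩, h3, h4⟩
      have hn : n = (v : ℤ) + 2 ^ k * q := by rw [← hq]; ring
      have hb' : b = t k + 3 ^ o k * q := by rw [← h4, hn, htk]
      refine ⟨⟨q, by rw [hb']; ring⟩, ?_, fun i hi => ?_⟩
      · have h5 := htr q 0 (Nat.zero_le k)
        rw [Function.iterate_zero, id, ← hb', ← hn] at h5
        rw [← h5]
        exact h2
      · have h5 := htr q i hi.le
        rw [← hb', ← hn] at h5
        rw [← h5]
        exact h3 i hi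
    · rintro ⟨⟨q, hq⟩, h2, h3⟩
      have hb' : b = t k + 3 ^ o k * q := by rw [← hq]; ring
      have h5 := htr q 0 (Nat.zero_le k)
      rw [Function.iterate_zero, id, ← hb'] at h5
      refine ⟨(v : ℤ) + 2 ^ k * q, ?_, by rw [h5]; exact h2, ⟨q, by ring⟩, fun i hi => ?_, by rw [htk, hb']⟩
      · rcases Nat.eq_zero_or_pos k with h0 | h0
        · subst h0
          have h6 := htk q
          rw [Function.iterate_zero, id] at h6
          rw [h6, ← hb']
          exact hb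
        · have h6 := h3 0 h0
          rw [← h5] at h6
          have h7 : (1 : ℝ) < (((v : ℤ) + 2 ^ k * q : ℤ) : ℝ) := by linarith
          have h8 : (1 : ℤ) < (v : ℤ) + 2 ^ k * q := by exact_mod_cast h7
          exact h8.le
      · rw [htr q i hi.le, ← hb']
        exact h3 i hi
  refine ⟨h, hh, ∑ i ∈ range k, (2 * |c i| / ρ i + 1) + (2 * |c 0| / ρ 0 + 1), fun y hy => ?_⟩
  have hy0 : 0 < y := by linarith
  have hbound : ∀ b ∈ Finset.Icc (1 : ℤ) ⌊y⌋,
      |(if Pkv d R y k v b then (1 : ℝ) else 0) - h (b / y) b| ≤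
      ∑ i ∈ range k, (if |ρ i * b - y| ≤ |c i| then (1 : ℝ) else 0) +
        (if |ρ 0 * b - R * y| ≤ |c 0| then (1 : ℝ) else 0) := by
    intro b hb
    rw [Finset.mem_Icc] at hb
    have hb0 : (0 : ℝ) < b := by exact_mod_cast (by omega : (0 : ℤ) < b)
    have hs0 : 0 ≤ ∑ i ∈ range k, (if |ρ i * b - y| ≤ |c i| then (1 : ℝ) else 0) :=
      Finset.sum_nonneg fun i _ => by split_ifs <;> norm_num
    have hle1 : |(if Pkv d R y k v b then (1 : ℝ) else 0) - h (b / y) b| ≤ 1 := by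
      rw [hval]
      split_ifs <;> norm_num
    by_cases h1 : |ρ 0 * b - R * y| ≤ |c 0|
    · rw [if_pos h1]
      linarith
    · rw [if_neg h1, add_zero]
      by_cases h2 : ∃ i ∈ range k, |ρ i * b - y| ≤ |c i|
      · obtain ⟨i, hi, hi2⟩ := h2
        have h3 : (1 : ℝ) ≤ ∑ i ∈ range k, (if |ρ i * b - y| ≤ |c i| then (1 : ℝ) else 0) := by
          have h4 := Finset.single_le_sum (f := fun i => if |ρ i * b - y| ≤ |c i| then (1 : ℝ) else 0)
            (fun i _ => by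
              show (0 : ℝ) ≤ if |ρ i * b - y| ≤ |c i| then (1 : ℝ) else 0
              split_ifs <;> norm_num) hi
          simp only [if_pos hi2] at h4
          exact h4
        linarith
      · push Not at h2
        have h3 : Pkv d R y k v b ↔ ((α < (b : ℝ) / y ∧ (b : ℝ) / y ≤ β) ∧ (3 : ℤ) ^ o k ∣ b - t k) := by
          rw [hP y hy b hb.1, lt_iff_of_far' h1, lt_div_iff₀ hy0, hα y b hy0 hb0, hβ,
            div_le_div_iff₀ hy0 (hρ0 0)]
          have h4 : (∀ i < k, y < ρ i * b + c i) ↔ ∀ i < k, y < ρ i * b := by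
            constructor
            · intro h5 i hi
              exact (lt_iff_of_far (not_le.2 (h2 i (mem_range.2 hi)))).1 (h5 i hi)
            · intro h5 i hi
              exact (lt_iff_of_far (not_le.2 (h2 i (mem_range.2 hi)))).2 (h5 i hi)
          rw [h4]
          constructor
          · rintro ⟨h5, h6, h7⟩
            exact ⟨⟨h7, by linarith⟩, h5⟩
          · rintro ⟨⟨h7, h6⟩, h5⟩
            exact ⟨h5, by linarith, h7⟩
        rw [hval]
        by_cases h4 : Pkv d R y k v b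
        · rw [if_pos h4, if_pos (h3.1 h4), sub_self, abs_zero]
          exact hs0
        · rw [if_neg h4, if_neg (fun h5 => h4 (h3.2 h5)), sub_self, abs_zero]
          exact hs0
  refine (Finset.sum_le_sum hbound).trans ?_
  rw [Finset.sum_add_distrib, Finset.sum_comm]
  refine add_le_add (Finset.sum_le_sum fun i _ => ?_) ?_
  · rw [Finset.sum_boole]
    exact count_near _ _ _ _ (hρ0 i) (abs_nonneg _)
  · rw [Finset.sum_boole]
    exact count_near _ _ _ _ (hρ0 0) (abs_nonneg _)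

end Pool.Agent.Q153.PD
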