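import Pool.Agent.Q153.PD.Lca

/-!
# Project PD, job Lcb: the local limit law of the first passage for fixed `R`
-/

set_option autoImplicit false

namespace Pool.Agent.Q153.PD

open Finset Filter Topology
open Pool.Agent.H499R2.ND Pool.Agent.H320R2.PD Pool.Agent.Y856.PD Pool.Agent.Q74.PD
open Pool.Agent.Q204.PDP (oc rho rho_pos rho_lt)

/-- `n` is a witness of `Pkv` -/
def Wt (d : ℤ) (R y : ℝ) (p : ℕ × ℕ) (b n : ℤ) : Prop :=
  1 ≤ n ∧ (n : ℝ) < R * y ∧ (2 : ℤ) ^ p.1 ∣ n - p.2 ∧ (∀ i < p.1, y < (((Td d)^[i] n : ℤ) : ℝ)) ∧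
    (Td d)^[p.1] n = b

/-- pairs of times and classes -/
noncomputable def TT (K : ℕ) : Finset (ℕ × ℕ) :=
  (range (K + 1) ×ˢ range (2 ^ K)).filter fun p => p.2 < 2 ^ p.1

theorem mem_TT {K : ℕ} {p : ℕ × ℕ} : p ∈ TT K ↔ p.1 ≤ K ∧ p.2 < 2 ^ p.1 := by
  unfold TT
  rw [mem_filter, mem_product, mem_range, mem_range]
  constructor
  · rintro ⟨⟨h1, -⟩, h3⟩
    exact ⟨by omega, h3⟩
  · rintro ⟨h1, h2⟩
    exact ⟨⟨by omega, h2.trans_le (Nat.pow_le_pow_right (by norm_num) h1)⟩, h2⟩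

/-- the witness is unique -/
theorem wt_unique {d : ℤ} (hd : Odd d) {R y : ℝ} {p : ℕ × ℕ} {b n n' : ℤ} (h : Wt d R y p b n)
    (h' : Wt d R y p b n') : n = n' := by
  obtain ⟨-, -, ⟨q, hq⟩, -, h1⟩ := h
  obtain ⟨-, -, ⟨q', hq'⟩, -, h1'⟩ := h'
  have e : n = (p.2 : ℤ) + 2 ^ p.1 * q := by rw [← hq]; ring
  have e' : n' = (p.2 : ℤ) + 2 ^ p.1 * q' := by rw [← hq']; ring
  rw [e, traj hd p.1 p.2 q le_rfl] at h1
  rw [e', traj hd p.1 p.2 q' le_rfl, ← h1] at h1'
  have h2 : (3 : ℤ) ^ oc d p.1 (p.2 : ℤ) * (2 ^ (p.1 - p.1) * q') =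
      3 ^ oc d p.1 (p.2 : ℤ) * (2 ^ (p.1 - p.1) * q) := by linarith
  rw [Nat.sub_self, pow_zero, one_mul, one_mul] at h2
  have h3 : q' = q := mul_left_cancel₀ (by positivity) h2
  rw [e, e', h3]

/-- the pair is determined by the witness -/
theorem pair_unique {d : ℤ} {R y : ℝ} {p p' : ℕ × ℕ} {b b' n : ℤ} (hb : (b : ℝ) ≤ y) (hb' : (b' : ℝ) ≤ y)
    (hp : p.2 < 2 ^ p.1) (hp' : p'.2 < 2 ^ p'.1) (h : Wt d R y p b n) (h' : Wt d R y p' b' n) : p = p' := by
  obtain ⟨-, -, h2, h3, h4⟩ := h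
  obtain ⟨-, -, h2', h3', h4'⟩ := h'
  have e : p.1 = p'.1 := by
    rcases lt_trichotomy p.1 p'.1 with h5 | h5 | h5
    · have := h3' p.1 h5
      rw [h4] at this
      linarith
    · exact h5
    · have := h3 p'.1 h5
      rw [h4'] at this
      linarith
  have e2 : p.2 = p'.2 := by
    rw [← e] at h2' hp'
    have h5 : (2 : ℤ) ^ p.1 ∣ (p.2 : ℤ) - p'.2 := by
      have h6 := dvd_sub h2' h2
      have h7 : n - (p'.2 : ℤ) - (n - (p.2 : ℤ)) = (p.2 : ℤ) - p'.2 := by ring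
      rw [h7] at h6
      exact h6
    have h6 : (p.2 : ℤ) - p'.2 = 0 := by
      apply Int.eq_zero_of_abs_lt_dvd h5
      rw [abs_lt]
      have h7 : (p.2 : ℤ) < 2 ^ p.1 := by exact_mod_cast hp
      have h8 : (p'.2 : ℤ) < 2 ^ p.1 := by exact_mod_cast hp'
      constructor <;> omega
    omega
  exact Prod.ext e e2

open Classical in
theorem count_le {d : ℤ} {R y : ℝ} (K : ℕ) {b : ℤ} (hb : (b : ℝ) ≤ y) :
    ((TT K).filter fun p => Pkv d R y p.1 p.2 b).card ≤ (pos {n | pass d y n = b} (R * y)).card := by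
  have hch : ∀ p : ℕ × ℕ, ∃ n : ℤ, Pkv d R y p.1 p.2 b → Wt d R y p b n := by
    intro p
    by_cases h : Pkv d R y p.1 p.2 b
    · obtain ⟨n, hn⟩ := h
      exact ⟨n, fun _ => hn⟩
    · exact ⟨0, fun h' => absurd h' h⟩
  choose f hf using hch
  refine Finset.card_le_card_of_injOn f ?_ ?_
  · intro p hp
    rw [Finset.mem_coe, mem_filter] at hp
    have h := hf p hp.2
    rw [Finset.mem_coe, mem_pos]
    refine ⟨⟨h.1, h.2.1⟩, ?_⟩
    show pass d y (f p) = b
    rw [Pool.Agent.Q223.PD.pass_eq (k := p.1)]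
    · exact h.2.2.2.2
    · intro i hi
      exact not_le.2 (h.2.2.2.1 i (mem_range.1 hi))
    · rw [h.2.2.2.2]
      exact hb
  · intro p hp p' hp' he
    rw [Finset.mem_coe, mem_filter] at hp hp'
    have h := hf p hp.2
    have h' := hf p' hp'.2
    rw [← he] at h'
    exact pair_unique hb hb (mem_TT.1 hp.1).2 (mem_TT.1 hp'.1).2 h h'

open Classical in
theorem le_count {d : ℤ} (hd : Odd d) {R y : ℝ} (K : ℕ) {b : ℤ} (hb1 : 1 ≤ b) :
    (pos {n | pass d y n = b} (R * y)).card ≤ ((TT K).filter fun p => Pkv d R y p.1 p.2 b).card +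
      ((pos {n | y < (((Td d)^[K] n : ℤ) : ℝ)} (R * y)).filter fun n => pass d y n = b).card := by
  have h1 := Finset.card_filter_add_card_filter_not (s := pos {n | pass d y n = b} (R * y))
    (fun n => y < (((Td d)^[K] n : ℤ) : ℝ))
  rw [← h1, add_comm]
  refine add_le_add ?_ ?_
  · -- the ones which pass in time
    have hch : ∀ n : ℤ, ∃ p : ℕ × ℕ, n ∈ (pos {n | pass d y n = b} (R * y)).filter
        (fun n => ¬ y < (((Td d)^[K] n : ℤ) : ℝ)) → p ∈ TT K ∧ Wt d R y p b n := by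
      intro n
      by_cases hn : n ∈ (pos {n | pass d y n = b} (R * y)).filter
          (fun n => ¬ y < (((Td d)^[K] n : ℤ) : ℝ))
      · have hn' := hn
        rw [mem_filter, mem_pos] at hn'
        obtain ⟨⟨⟨h2, h3⟩, h4⟩, h5⟩ := hn'
        have h4' : pass d y n = b := h4
        have hex : ∃ k : ℕ, (((Td d)^[k] n : ℤ) : ℝ) ≤ y := ⟨K, not_lt.1 h5⟩
        have hK : Nat.find hex ≤ K := Nat.find_min' hex (not_lt.1 h5)
        have h6 : ∀ i ∈ range (Nat.find hex), ¬ ((((Td d)^[i] n : ℤ) : ℝ) ≤ y) :=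
          fun i hi => Nat.find_min hex (mem_range.1 hi)
        have h7 := Nat.find_spec hex
        have h8 := Pool.Agent.Q223.PD.pass_eq h6 h7
        have h9 : (0 : ℤ) < 2 ^ Nat.find hex := by positivity
        have h10 : 0 ≤ n % 2 ^ Nat.find hex := Int.emod_nonneg n h9.ne'
        have h11 : (((n % 2 ^ Nat.find hex).toNat : ℕ) : ℤ) = n % 2 ^ Nat.find hex :=
          Int.toNat_of_nonneg h10
        refine ⟨(Nat.find hex, (n % 2 ^ Nat.find hex).toNat), fun _ => ⟨?_, h2, h3, ?_, ?_, ?_⟩⟩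
        · rw [mem_TT]
          refine ⟨hK, ?_⟩
          have h12 := Int.emod_lt_of_pos n h9
          rw [← h11] at h12
          exact_mod_cast h12
        · show (2 : ℤ) ^ Nat.find hex ∣ n - (((n % 2 ^ Nat.find hex).toNat : ℕ) : ℤ)
          rw [h11]
          exact Int.dvd_self_sub_emod
        · intro i hi
          exact not_le.1 (h6 i (mem_range.2 hi))
        · show (Td d)^[Nat.find hex] n = b
          rw [← h8]
          exact h4'
      · exact ⟨(0, 0), fun h => absurd h hn⟩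
    choose f hf using hch
    refine Finset.card_le_card_of_injOn f ?_ ?_
    · intro n hn
      have h := hf n (Finset.mem_coe.1 hn)
      rw [Finset.mem_coe, mem_filter]
      exact ⟨h.1, n, h.2⟩
    · intro n hn n' hn' he
      have h := hf n (Finset.mem_coe.1 hn)
      have h' := hf n' (Finset.mem_coe.1 hn')
      rw [← he] at h'
      exact wt_unique hd h.2 h'.2
  · -- the late ones
    refine card_le_card fun n hn => ?_
    rw [mem_filter, mem_pos] at hn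
    rw [mem_filter, mem_pos]
    exact ⟨⟨hn.1.1, hn.2⟩, hn.1.2⟩

theorem lcb (h : S_Lca) : S_Lcb := by
  classical
  intro d hd R hR ε hε
  have hR0 : 0 < R := by linarith
  -- the choice of `L`
  have h1 : ∀ᶠ L : ℕ in atTop, (27 : ℝ) ^ L * R + 1 ≤ 32 ^ L := by
    have h2 : Tendsto (fun L : ℕ => (27 / 32 : ℝ) ^ L * R + (1 / 32 : ℝ) ^ L) atTop (𝓝 (0 * R + 0)) :=
      ((tendsto_pow_atTop_nhds_zero_of_lt_one (by norm_num) (by norm_num)).mul_const R).add
        (tendsto_pow_atTop_nhds_zero_of_lt_one (by norm_num) (by norm_num))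
    rw [zero_mul, zero_add] at h2
    filter_upwards [h2.eventually_lt_const one_pos] with L hL
    have h3 : (0 : ℝ) < 32 ^ L := by positivity
    rw [div_pow, div_pow, one_pow, div_mul_eq_mul_div, ← add_div, div_lt_one h3] at hL
    exact hL.le
  have h2 : ∀ᶠ L : ℕ in atTop, 2 * rho ^ (5 * L) ≤ ε / 2 := by
    have h3 : Tendsto (fun L : ℕ => 2 * (rho ^ 5) ^ L) atTop (𝓝 (2 * 0)) :=
      (tendsto_pow_atTop_nhds_zero_of_lt_one (pow_nonneg rho_pos.le 5)
        (pow_lt_one₀ rho_pos.le rho_lt (by norm_num))).const_mul 2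
    rw [mul_zero] at h3
    filter_upwards [h3.eventually_lt_const (half_pos hε)] with L hL
    rw [pow_mul]
    exact hL.le
  obtain ⟨L, hL1, hL2⟩ := (h1.and h2).exists
  obtain ⟨K, hK⟩ : ∃ K : ℕ, K = 5 * L := ⟨_, rfl⟩
  obtain ⟨y1, hy1⟩ := eventually_atTop.1 (Pool.Agent.Q223.PD.late hd hR L hL1)
  rw [← hK] at hy1 hL2
  choose hf hfS C hC using fun (k v : ℕ) => h d hd R hR k v
  refine ⟨(1 / R) • ∑ p ∈ TT K, hf p.1 p.2, Submodule.smul_mem _ _ (Submodule.sum_mem _ fun p _ => hfS p.1 p.2),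
    max (max y1 1) (2 * (∑ p ∈ TT K, |C p.1 p.2|) / ε), fun y hy => ?_⟩
  have hyy1 : y1 ≤ y := (le_max_left _ _).trans ((le_max_left _ _).trans hy)
  have hyone : 1 ≤ y := (le_max_right _ _).trans ((le_max_left _ _).trans hy)
  have hyC : 2 * (∑ p ∈ TT K, |C p.1 p.2|) / ε ≤ y := (le_max_right _ _).trans hy
  have hy0 : 0 < y := by linarith
  have hlate := hy1 y hyy1
  -- the bound for one `b`
  have hb : ∀ b ∈ Finset.Icc (1 : ℤ) ⌊y⌋,
      |G {n | pass d y n = b} (R * y) / R - ((1 / R) • ∑ p ∈ TT K, hf p.1 p.2) (b / y) b| ≤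
      (1 / R) * ((((pos {n | y < (((Td d)^[K] n : ℤ) : ℝ)} (R * y)).filter
        fun n => pass d y n = b).card : ℕ) : ℝ) +
      (1 / R) * ∑ p ∈ TT K, |(if Pkv d R y p.1 p.2 b then (1 : ℝ) else 0) - hf p.1 p.2 (b / y) b| := by
    intro b hb
    rw [Finset.mem_Icc] at hb
    have hby : (b : ℝ) ≤ y := (Int.cast_le.2 hb.2).trans (Int.floor_le y)
    have g1 := count_le (d := d) (R := R) K hby
    have g2 := le_count hd (R := R) (y := y) K hb.1
    have g1' : ((((TT K).filter fun p => Pkv d R y p.1 p.2 b).card : ℕ) : ℝ) ≤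
        G {n | pass d y n = b} (R * y) := by
      unfold G
      exact_mod_cast g1
    have g2' : G {n | pass d y n = b} (R * y) ≤
        ((((TT K).filter fun p => Pkv d R y p.1 p.2 b).card : ℕ) : ℝ) +
        ((((pos {n | y < (((Td d)^[K] n : ℤ) : ℝ)} (R * y)).filter
          fun n => pass d y n = b).card : ℕ) : ℝ) := by
      unfold G
      exact_mod_cast g2
    have e1 : ((((TT K).filter fun p => Pkv d R y p.1 p.2 b).card : ℕ) : ℝ) =
        ∑ p ∈ TT K, (if Pkv d R y p.1 p.2 b then (1 : ℝ) else 0) := by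
      rw [Finset.sum_boole]
    have e2 : ((1 / R) • ∑ p ∈ TT K, hf p.1 p.2) (b / y) b =
        (1 / R) * ∑ p ∈ TT K, hf p.1 p.2 (b / y) b := by
      rw [Pi.smul_apply, Pi.smul_apply, smul_eq_mul, Finset.sum_apply, Finset.sum_apply]
    rw [e2]
    have e3 : G {n | pass d y n = b} (R * y) / R - (1 / R) * ∑ p ∈ TT K, hf p.1 p.2 (b / y) b =
        (1 / R) * (G {n | pass d y n = b} (R * y) -
          ((((TT K).filter fun p => Pkv d R y p.1 p.2 b).card : ℕ) : ℝ)) +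
        (1 / R) * ∑ p ∈ TT K, ((if Pkv d R y p.1 p.2 b then (1 : ℝ) else 0) - hf p.1 p.2 (b / y) b) := by
      rw [Finset.sum_sub_distrib, ← e1]
      ring
    rw [e3]
    have hR1 : 0 ≤ 1 / R := by positivity
    refine (abs_add_le _ _).trans (add_le_add ?_ ?_)
    · rw [abs_mul, abs_of_nonneg hR1]
      refine mul_le_mul_of_nonneg_left ?_ hR1
      rw [abs_of_nonneg (by linarith)]
      linarith
    · rw [abs_mul, abs_of_nonneg hR1]
      exact mul_le_mul_of_nonneg_left (Finset.abs_sum_le_sum_abs _ _) hR1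
  refine (Finset.sum_le_sum hb).trans ?_
  rw [Finset.sum_add_distrib, ← Finset.mul_sum, ← Finset.mul_sum]
  have hR1 : 1 / R ≤ 1 := by
    rw [div_le_one hR0]
    exact hR
  have hR1' : 0 ≤ 1 / R := by positivity
  -- the late ones
  have s1 : (1 / R) * ∑ b ∈ Finset.Icc (1 : ℤ) ⌊y⌋,
      ((((pos {n | y < (((Td d)^[K] n : ℤ) : ℝ)} (R * y)).filter
        fun n => pass d y n = b).card : ℕ) : ℝ) ≤ ε / 2 * y := by
    have h3 : ∑ b ∈ Finset.Icc (1 : ℤ) ⌊y⌋,
        ((((pos {n | y < (((Td d)^[K] n : ℤ) : ℝ)} (R * y)).filter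
          fun n => pass d y n = b).card : ℕ) : ℝ) ≤ G {n | y < (((Td d)^[K] n : ℤ) : ℝ)} (R * y) := by
      have h4 := Finset.sum_card_fiberwise_eq_card_filter
        (pos {n | y < (((Td d)^[K] n : ℤ) : ℝ)} (R * y)) (Finset.Icc (1 : ℤ) ⌊y⌋) (fun n => pass d y n)
      unfold G
      rw [← Nat.cast_sum, h4]
      exact_mod_cast card_le_card (filter_subset _ _)
    have h4 := h3.trans hlate
    calc (1 / R) * _ ≤ (1 / R) * (2 * rho ^ K * (R * y)) := mul_le_mul_of_nonneg_left h4 hR1'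
      _ = 2 * rho ^ K * y := by field_simp
      _ ≤ ε / 2 * y := mul_le_mul_of_nonneg_right hL2 hy0.le
  have s2 : (1 / R) * ∑ b ∈ Finset.Icc (1 : ℤ) ⌊y⌋, ∑ p ∈ TT K,
      |(if Pkv d R y p.1 p.2 b then (1 : ℝ) else 0) - hf p.1 p.2 (b / y) b| ≤ ε / 2 * y := by
    rw [Finset.sum_comm]
    have h3 : ∑ p ∈ TT K, ∑ b ∈ Finset.Icc (1 : ℤ) ⌊y⌋,
        |(if Pkv d R y p.1 p.2 b then (1 : ℝ) else 0) - hf p.1 p.2 (b / y) b| ≤
        ∑ p ∈ TT K, |C p.1 p.2| :=
      Finset.sum_le_sum fun p _ => (hC p.1 p.2 y hyone).trans (le_abs_self _)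
    have h4 : 0 ≤ ∑ p ∈ TT K, |C p.1 p.2| := Finset.sum_nonneg fun p _ => abs_nonneg _
    have h5 : ∑ p ∈ TT K, |C p.1 p.2| ≤ ε / 2 * y := by
      rw [div_le_iff₀ hε] at hyC
      linarith
    calc (1 / R) * _ ≤ (1 / R) * ∑ p ∈ TT K, |C p.1 p.2| := mul_le_mul_of_nonneg_left h3 hR1'
      _ ≤ 1 * ∑ p ∈ TT K, |C p.1 p.2| := mul_le_mul_of_nonneg_right hR1 h4
      _ ≤ ε / 2 * y := by rw [one_mul]; exact h5
  linarith

end Pool.Agent.Q153.PD
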