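import Pool.Agent.Q264.PD.Stm

/-!
# Project PD (helper264), job RECT: rectangles
-/

set_option autoImplicit false

namespace Pool.Agent.Q153.PD

open Pool.Agent.Q264.PD

theorem t_RECT : S_RECT := by
  intro r hr hr1
  set ρ : ℝ := (1 + r) / 2 with hρ
  have hρr : r < ρ := by rw [hρ]; linarith
  have hρ1 : ρ < 1 := by rw [hρ]; linarith
  have hg : 0 < ρ ^ 2 - r ^ 2 := by nlinarith
  obtain ⟨n, hn⟩ := exists_nat_gt (6 / (ρ ^ 2 - r ^ 2))
  have hn0 : 0 < (n : ℝ) := lt_trans (by positivity) hn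
  have hn1 : (1 : ℝ) ≤ n := by
    have h1 : 0 < n := by exact_mod_cast hn0
    exact_mod_cast h1
  have hn3 : 3 / (n : ℝ) ≤ (ρ ^ 2 - r ^ 2) / 2 := by
    rw [div_lt_iff₀ hg] at hn
    rw [div_le_iff₀ hn0]
    nlinarith
  set τ : ℝ := (ρ ^ 2 - r ^ 2) / 20 with hτ
  have hτ0 : 0 < τ := by positivity
  have hρsq : ρ ^ 2 < 1 := by nlinarith
  have hτ1 : τ < 1 := by
    rw [hτ]
    nlinarith [sq_nonneg r]
  have hτs : 8 * τ + 2 * τ ^ 2 ≤ (ρ ^ 2 - r ^ 2) / 2 := by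
    have h1 : τ ^ 2 ≤ τ := by nlinarith
    have h2 : (ρ ^ 2 - r ^ 2) / 2 = 10 * τ := by rw [hτ]; ring
    linarith
  refine ⟨n + 1, fun j => if (j : ℕ) / (n : ℝ) ≤ r then ((j : ℕ) + 1) / (n : ℝ) else 0,
    fun j => Real.sqrt (r ^ 2 - ((j : ℕ) / (n : ℝ)) ^ 2), τ, ρ, hτ0, hρr, hρ1, ?_, ?_, ?_⟩
  · intro j
    refine ⟨?_, Real.sqrt_nonneg _⟩
    dsimp only
    split_ifs
    · positivity
    · exact le_rfl
  · intro z hz
    have hre : |z.re| ≤ r := (Complex.abs_re_le_norm z).trans hz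
    have hfl : (⌊(n : ℝ) * |z.re|⌋₊ : ℝ) ≤ n * |z.re| := Nat.floor_le (by positivity)
    have hfu : (n : ℝ) * |z.re| < ⌊(n : ℝ) * |z.re|⌋₊ + 1 := Nat.lt_floor_add_one _
    have hj : ⌊(n : ℝ) * |z.re|⌋₊ < n + 1 := by
      have h1 : (⌊(n : ℝ) * |z.re|⌋₊ : ℝ) ≤ n := by nlinarith [abs_nonneg z.re]
      have h2 : ⌊(n : ℝ) * |z.re|⌋₊ ≤ n := by exact_mod_cast h1
      omega
    have hdiv : (⌊(n : ℝ) * |z.re|⌋₊ : ℝ) / n ≤ |z.re| := by
      rw [div_le_iff₀ hn0]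
      linarith
    refine ⟨⟨⌊(n : ℝ) * |z.re|⌋₊, hj⟩, ?_, ?_⟩
    · dsimp only
      rw [if_pos (hdiv.trans hre), le_div_iff₀ hn0]
      linarith
    · dsimp only
      apply Real.le_sqrt_of_sq_le
      have h1 : z.re ^ 2 + z.im ^ 2 ≤ r ^ 2 := by
        have h2 : ‖z‖ ^ 2 = z.re ^ 2 + z.im ^ 2 := by
          rw [Complex.sq_norm, Complex.normSq_apply]
          ring
        rw [← h2]
        exact pow_le_pow_left₀ (norm_nonneg z) hz 2
      have h3 : ((⌊(n : ℝ) * |z.re|⌋₊ : ℝ) / n) ^ 2 ≤ z.re ^ 2 := by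
        rw [← sq_abs z.re]
        exact pow_le_pow_left₀ (by positivity) hdiv 2
      rw [sq_abs]
      linarith
  · intro j
    dsimp only
    by_cases hj : ((j : ℕ) : ℝ) / n ≤ r
    · rw [if_pos hj]
      have h0 : (0 : ℝ) ≤ (j : ℕ) / (n : ℝ) := by positivity
      have h1 : 0 ≤ r ^ 2 - ((j : ℕ) / (n : ℝ)) ^ 2 := by nlinarith
      have h2 := Real.sq_sqrt h1
      set β := Real.sqrt (r ^ 2 - ((j : ℕ) / (n : ℝ)) ^ 2) with hβ
      have hβ0 : 0 ≤ β := Real.sqrt_nonneg _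
      have hβ1 : β ≤ 1 := by nlinarith
      have hjn : ((j : ℕ) : ℝ) ≤ n := by
        rw [div_le_iff₀ hn0] at hj
        nlinarith
      have hα : ((j : ℕ) + 1) / (n : ℝ) = (j : ℕ) / (n : ℝ) + 1 / n := by ring
      set a := ((j : ℕ) : ℝ) / (n : ℝ) with ha
      have ha1 : a ≤ 1 := by linarith
      have hi0 : 0 < 1 / (n : ℝ) := by positivity
      have hi1 : 1 / (n : ℝ) ≤ 1 := by
        rw [div_le_one hn0]
        exact hn1
      have h3n : 3 / (n : ℝ) = 3 * (1 / n) := by ring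
      rw [hα]
      rw [h3n] at hn3
      set i := 1 / (n : ℝ) with hi
      have key : (a + i + τ) ^ 2 + (β + τ) ^ 2 = a ^ 2 + β ^ 2 + (2 * a * i + i ^ 2) + 2 * τ * (a + i + β) + 2 * τ ^ 2 := by
        ring
      rw [key, h2]
      have h41 : a * i ≤ 1 * i := mul_le_mul_of_nonneg_right ha1 hi0.le
      have h42 : i * i ≤ 1 * i := mul_le_mul_of_nonneg_right hi1 hi0.le
      have h4 : 2 * a * i + i ^ 2 ≤ 3 * i := by linarith [sq i]
      have h5 : 2 * τ * (a + i + β) ≤ 8 * τ := by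
        have h51 : 2 * τ * (a + i + β) ≤ 2 * τ * 4 := by
          apply mul_le_mul_of_nonneg_left _ (by linarith)
          linarith
        linarith
      linarith
    · rw [if_neg hj]
      have h1 : Real.sqrt (r ^ 2 - ((j : ℕ) / (n : ℝ)) ^ 2) = 0 := by
        apply Real.sqrt_eq_zero_of_nonpos
        push Not at hj
        nlinarith
      rw [h1]
      have h2 : (0 + τ) ^ 2 + (0 + τ) ^ 2 = 2 * τ ^ 2 := by ring
      rw [h2]
      nlinarith
end Pool.Agent.Q153.PD
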