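import Pool.Agent.Q264.PD.Stm

/-!
# Project PD (helper264), job YG: Young's inequality
-/

open MeasureTheory Complex Filter Metric Set
open scoped ContDiff FourierTransform ENNReal

set_option autoImplicit false

namespace Pool.Agent.Q153.PD

open Pool.Agent.Q264.PD

theorem cs {k f : ℂ → ℝ≥0∞} (hk : Measurable k) (hf : AEMeasurable f) :
    (∫⁻ η, k η * f η) ^ 2 ≤ (∫⁻ η, k η) * ∫⁻ η, k η * f η ^ 2 := by
  have hc : Real.HolderConjugate 2 2 := Real.HolderConjugate.two_two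
  have h1 := ENNReal.lintegral_mul_le_Lp_mul_Lq volume hc (f := fun η => k η ^ (1 / 2 : ℝ))
    (g := fun η => k η ^ (1 / 2 : ℝ) * f η) (hk.pow_const _).aemeasurable
    ((hk.pow_const _).aemeasurable.mul hf)
  have h2 : ∀ x : ℝ≥0∞, x ^ (1 / 2 : ℝ) * x ^ (1 / 2 : ℝ) = x := by
    intro x
    rw [← ENNReal.rpow_add_of_nonneg _ _ (by norm_num) (by norm_num)]
    norm_num
  have h3 : ∀ x : ℝ≥0∞, (x ^ (1 / 2 : ℝ)) ^ (2 : ℝ) = x := by
    intro x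
    rw [← ENNReal.rpow_mul]
    norm_num
  have e1 : (∫⁻ η, ((fun η => k η ^ (1 / 2 : ℝ)) * fun η => k η ^ (1 / 2 : ℝ) * f η) η) = ∫⁻ η, k η * f η := by
    refine lintegral_congr fun η => ?_
    simp only [Pi.mul_apply]
    rw [← mul_assoc, h2]
  have e2 : (∫⁻ η, (fun η => k η ^ (1 / 2 : ℝ)) η ^ (2 : ℝ)) = ∫⁻ η, k η :=
    lintegral_congr fun η => h3 _
  have e3 : (∫⁻ η, (fun η => k η ^ (1 / 2 : ℝ) * f η) η ^ (2 : ℝ)) = ∫⁻ η, k η * f η ^ 2 := by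
    refine lintegral_congr fun η => ?_
    show (k η ^ (1 / 2 : ℝ) * f η) ^ (2 : ℝ) = _
    rw [ENNReal.mul_rpow_of_nonneg _ _ (by norm_num), h3, ENNReal.rpow_two]
  rw [e1, e2, e3] at h1
  calc (∫⁻ η, k η * f η) ^ 2
      ≤ ((∫⁻ η, k η) ^ (1 / 2 : ℝ) * (∫⁻ η, k η * f η ^ 2) ^ (1 / 2 : ℝ)) ^ 2 := by gcongr
    _ = (∫⁻ η, k η) * ∫⁻ η, k η * f η ^ 2 := by
        rw [mul_pow, sq, sq, h2, h2]

theorem t_YG : S_YG := by
  intro k f hk hf
  have h0 : AEMeasurable (Function.uncurry fun ξ η : ℂ => k (ξ - η) * f η ^ 2) (volume.prod volume) := by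
    have h1 : Measurable fun p : ℂ × ℂ => k (p.1 - p.2) := hk.comp (measurable_fst.sub measurable_snd)
    have h2 : AEMeasurable (fun p : ℂ × ℂ => f p.2) (volume.prod volume) := hf.comp_snd
    exact h1.aemeasurable.mul (h2.pow_const 2)
  have h1 : AEMeasurable fun ξ : ℂ => ∫⁻ η, k (ξ - η) * f η ^ 2 := h0.lintegral_prod_right'
  calc (∫⁻ ξ, (∫⁻ η, k (ξ - η) * f η) ^ 2)
      ≤ ∫⁻ ξ, (∫⁻ ζ, k ζ) * ∫⁻ η, k (ξ - η) * f η ^ 2 := by
        refine lintegral_mono fun ξ => ?_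
        have h2 := cs (k := fun η => k (ξ - η)) (hk.comp (measurable_const.sub measurable_id)) hf
        rwa [lintegral_sub_left_eq_self k ξ] at h2
    _ = (∫⁻ ζ, k ζ) * ∫⁻ ξ, ∫⁻ η, k (ξ - η) * f η ^ 2 := lintegral_const_mul'' _ h1
    _ = (∫⁻ ζ, k ζ) * ∫⁻ η, ∫⁻ ξ, k (ξ - η) * f η ^ 2 := by
        rw [lintegral_lintegral_swap h0]
    _ = (∫⁻ ζ, k ζ) * ∫⁻ η, (∫⁻ ζ, k ζ) * f η ^ 2 := by
        congr 1
        refine lintegral_congr fun η => ?_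
        have h2 : Measurable fun ξ : ℂ => k (ξ - η) := hk.comp (measurable_id.sub measurable_const)
        rw [lintegral_mul_const _ h2]
        congr 1
        exact lintegral_sub_right_eq_self k η
    _ = (∫⁻ ζ, k ζ) * ((∫⁻ ζ, k ζ) * ∫⁻ η, f η ^ 2) := by
        rw [lintegral_const_mul'' _ (hf.pow_const 2)]
    _ = (∫⁻ ζ, k ζ) ^ 2 * ∫⁻ η, f η ^ 2 := by rw [sq, mul_assoc]

end Pool.Agent.Q153.PD
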